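import Pool.Agent.helper36.HK.Spec
import Pool.Agent.helper74.TG.SW

/-!
# Project fi, block HK: row APW
-/

set_option autoImplicit false

open Finset
open Pool.Agent.FI

noncomputable section

namespace Pool.Agent.HK

private theorem APW_np : ∃ C : ℝ, 0 < C ∧ ∀ u : ℕ,
    ∑ n ∈ Ioc 0 u with ¬ n.Prime, ArithmeticFunction.vonMangoldt n ≤ C * √(u : ℝ) := by
  obtain ⟨C, hC⟩ := Chebyshev.psi_sub_theta_le_mul_sqrt
  refine ⟨max C 1, lt_of_lt_of_le one_pos (le_max_right _ _), ?_⟩
  intro u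
  have h1 := hC u
  rw [Chebyshev.psi_sub_theta_eq_sum_not_prime, Nat.floor_natCast] at h1
  exact h1.trans (mul_le_mul_of_nonneg_right (le_max_left _ _) (Real.sqrt_nonneg _))

theorem APW : APW_stmt := by
  classical
  intro A B
  obtain ⟨C₁, x₁, hC₁, hSW⟩ := Pool.Agent.helper74.TG.siegel_walfisz (A + B) B
  obtain ⟨C₂, hC₂, hNP⟩ := APW_np
  have hev : ∀ᶠ x : ℝ in Filter.atTop, Real.log x ^ (2 * A) ≤ x := by
    have h1 := (Real.isLittleO_pow_log_id_atTop (n := 2 * A)).bound one_pos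
    filter_upwards [h1, Filter.eventually_ge_atTop 1] with x h2 h3
    have h4 : 0 ≤ Real.log x ^ (2 * A) := pow_nonneg (Real.log_nonneg h3) _
    rw [Real.norm_eq_abs, abs_of_nonneg h4, one_mul, id, Real.norm_eq_abs,
      abs_of_nonneg (by linarith)] at h2
    exact h2
  obtain ⟨x₂, hx₂⟩ := Filter.eventually_atTop.1 hev
  refine ⟨2 * C₁ + 2 * C₂, max x₁ (max x₂ 3), by positivity, ?_⟩
  intro x hx q hq hqx W hW1 hW2 hW3 u hu
  have hx1 : x₁ ≤ x := (le_max_left _ _).trans hx
  have hx2 : x₂ ≤ x := ((le_max_left _ _).trans (le_max_right _ _)).trans hx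
  have hx3 : 3 ≤ x := ((le_max_right _ _).trans (le_max_right _ _)).trans hx
  have hx0 : 0 < x := by linarith
  have hL : 1 ≤ Real.log x := by
    rw [Real.le_log_iff_exp_le hx0]
    have := Real.exp_one_lt_d9
    linarith
  have hL0 : 0 < Real.log x := by linarith
  -- all `n`
  have hsplit : ∑ n ∈ Ioc 0 u, (ArithmeticFunction.vonMangoldt n : ℂ) * W n =
      ∑ b ∈ range q, W b * ((∑ n ∈ Ioc 0 u with n ≡ b [MOD q],
        ArithmeticFunction.vonMangoldt n : ℝ) : ℂ) := by
    rw [← Finset.sum_fiberwise_of_maps_to (s := Ioc 0 u) (t := range q) (g := fun n => n % q)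
      (fun n _ => Finset.mem_range.2 (Nat.mod_lt _ hq))]
    apply Finset.sum_congr rfl
    intro b hb
    rw [Complex.ofReal_sum, Finset.mul_sum]
    have h1 : (Ioc 0 u).filter (fun n => n % q = b) = (Ioc 0 u).filter (fun n => n ≡ b [MOD q]) := by
      apply Finset.filter_congr
      intro n _
      unfold Nat.ModEq
      rw [Nat.mod_eq_of_lt (Finset.mem_range.1 hb)]
    rw [h1]
    apply Finset.sum_congr rfl
    intro n hn
    have h2 : n % q = b := by
      have := (Finset.mem_filter.1 hn).2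
      unfold Nat.ModEq at this
      rwa [Nat.mod_eq_of_lt (Finset.mem_range.1 hb)] at this
    have h3 : W (n % q) = W n := Function.Periodic.map_mod_nat hW1 n
    rw [← h3, h2]
    ring
  have hmain : ‖∑ n ∈ Ioc 0 u, (ArithmeticFunction.vonMangoldt n : ℂ) * W n -
      (u : ℂ) / (Nat.totient q : ℂ) * ∑ b ∈ range q, W b‖ ≤ 2 * C₁ * x / Real.log x ^ A := by
    rw [hsplit, Finset.mul_sum, ← Finset.sum_sub_distrib]
    have h1 : ∀ b ∈ range q, ‖W b * ((∑ n ∈ Ioc 0 u with n ≡ b [MOD q],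
        ArithmeticFunction.vonMangoldt n : ℝ) : ℂ) - (u : ℂ) / (Nat.totient q : ℂ) * W b‖ ≤
        2 * (C₁ * x / Real.log x ^ (A + B)) := by
      intro b _
      have h0 : 0 ≤ C₁ * x / Real.log x ^ (A + B) := by positivity
      by_cases hb : Nat.Coprime b q
      · have h2 := hSW x hx1 q hq hqx b hb u hu
        have h3 : W b * ((∑ n ∈ Ioc 0 u with n ≡ b [MOD q],
            ArithmeticFunction.vonMangoldt n : ℝ) : ℂ) - (u : ℂ) / (Nat.totient q : ℂ) * W b =
            W b * ((∑ n ∈ Ioc 0 u with n ≡ b [MOD q], ArithmeticFunction.vonMangoldt n -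
              u / (Nat.totient q : ℝ) : ℝ) : ℂ) := by
          push_cast
          ring
        rw [h3, norm_mul, Complex.norm_real, Real.norm_eq_abs]
        exact mul_le_mul (hW2 b) h2 (abs_nonneg _) (by norm_num)
      · rw [hW3 b hb, zero_mul, mul_zero, sub_zero, norm_zero]
        linarith
    refine (norm_sum_le _ _).trans ((Finset.sum_le_sum h1).trans ?_)
    rw [Finset.sum_const, Finset.card_range, nsmul_eq_mul]
    have h4 : (q : ℝ) * (2 * (C₁ * x / Real.log x ^ (A + B))) ≤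
        Real.log x ^ B * (2 * (C₁ * x / Real.log x ^ (A + B))) :=
      mul_le_mul_of_nonneg_right hqx (by positivity)
    refine h4.trans (le_of_eq ?_)
    rw [pow_add]
    field_simp
  -- prime powers
  have hpp : ‖∑ n ∈ Ioc 0 u, (ArithmeticFunction.vonMangoldt n : ℂ) * W n -
      ∑ p ∈ Ioc 0 u with p.Prime, (Real.log p : ℂ) * W p‖ ≤ 2 * (C₂ * √x) := by
    rw [← Finset.sum_filter_add_sum_filter_not (Ioc 0 u) (fun n => n.Prime)]
    have h1 : ∑ n ∈ Ioc 0 u with n.Prime, (ArithmeticFunction.vonMangoldt n : ℂ) * W n =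
        ∑ p ∈ Ioc 0 u with p.Prime, (Real.log p : ℂ) * W p := by
      apply Finset.sum_congr rfl
      intro n hn
      rw [ArithmeticFunction.vonMangoldt_apply_prime (Finset.mem_filter.1 hn).2]
    rw [h1, add_sub_cancel_left]
    have h2 : ‖∑ n ∈ Ioc 0 u with ¬ n.Prime, (ArithmeticFunction.vonMangoldt n : ℂ) * W n‖ ≤
        ∑ n ∈ Ioc 0 u with ¬ n.Prime, 2 * ArithmeticFunction.vonMangoldt n := by
      refine (norm_sum_le _ _).trans (Finset.sum_le_sum fun n _ => ?_)
      rw [norm_mul, Complex.norm_real, Real.norm_eq_abs,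
        abs_of_nonneg ArithmeticFunction.vonMangoldt_nonneg, mul_comm]
      exact mul_le_mul_of_nonneg_right (hW2 n) ArithmeticFunction.vonMangoldt_nonneg
    refine h2.trans ?_
    rw [← Finset.mul_sum]
    refine mul_le_mul_of_nonneg_left ((hNP u).trans ?_) (by norm_num)
    exact mul_le_mul_of_nonneg_left (Real.sqrt_le_sqrt hu) hC₂.le
  have hsqrt : √x ≤ x / Real.log x ^ A := by
    rw [le_div_iff₀ (by positivity)]
    have h1 := hx₂ x hx2
    have h2 : Real.log x ^ A ≤ √x := by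
      apply Real.le_sqrt_of_sq_le
      rw [← pow_mul, mul_comm A 2]
      exact h1
    calc √x * Real.log x ^ A ≤ √x * √x := mul_le_mul_of_nonneg_left h2 (Real.sqrt_nonneg _)
      _ = x := Real.mul_self_sqrt hx0.le
  have hfin : ∑ p ∈ Ioc 0 u with p.Prime, (Real.log p : ℂ) * W p -
      (u : ℂ) / (Nat.totient q : ℂ) * ∑ b ∈ range q, W b =
      (∑ n ∈ Ioc 0 u, (ArithmeticFunction.vonMangoldt n : ℂ) * W n -
        (u : ℂ) / (Nat.totient q : ℂ) * ∑ b ∈ range q, W b) -
      (∑ n ∈ Ioc 0 u, (ArithmeticFunction.vonMangoldt n : ℂ) * W n -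
        ∑ p ∈ Ioc 0 u with p.Prime, (Real.log p : ℂ) * W p) := by ring
  rw [hfin]
  refine (norm_sub_le _ _).trans ?_
  have h5 : 2 * (C₂ * √x) ≤ 2 * (C₂ * (x / Real.log x ^ A)) := by
    have := mul_le_mul_of_nonneg_left hsqrt hC₂.le
    linarith
  have h6 : (2 * C₁ + 2 * C₂) * x / Real.log x ^ A = 2 * C₁ * x / Real.log x ^ A +
      2 * (C₂ * (x / Real.log x ^ A)) := by ring
  rw [h6]
  linarith

end Pool.Agent.HK
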